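import Pool.Agent.Q60.ZGU.Conj

/-!
# One comparison isomorphism and all powers: the three assertions together
-/

open CategoryTheory AlgebraicGeometry

universe u

namespace Pool.Agent.Q60.ZGU

open Pool.Agent.H914
open Pool.Agent.Y121.AHS (HodgeTheory Conjugates)
open Pool.Agent.Q60.FI (Polarisable TotallyRealCentre)
open Pool.Agent.Q60.CJ (Preserved PreservedWith DegreeAtMost)

variable {k : Type u} [Field k] {𝒱 : VarClass k} {ops : CycleOps 𝒱}

theorem one (T : HodgeTheory ops) (D : Conjugates T) (a : D.J) (X : 𝒱.Obj)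
    [Nontrivial (T.W.H X)] (b : ℕ) (hb : Module.finrank T.W.K (T.W.H X) = b)
    (hX : Polarisable T X) (hX' : Polarisable (D.T' (D.t a)) X) :
    (∀ N : ℕ, (Real.exp (64 * (b : ℝ) ^ (2 / 3 : ℝ) * Real.log (2 * b)) ≤ N ∨
        4 ≤ N ∧ TotallyRealCentre T X) →
      PreservedWith D a Set.univ (Pool.Agent.Y133.Half.pw X (N - 1)) →
        ∀ n : ℕ, PreservedWith D a Set.univ (Pool.Agent.Y133.Half.pw X (n - 1))) ∧
    (TotallyRealCentre T X → Preserved D a (Pool.Agent.Y133.Half.pw X (4 - 1)) →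
      ∃ F : Subfield (D.L a), DegreeAtMost F (4 ^ b ^ 2) ∧
        ∀ n : ℕ, PreservedWith D a F (Pool.Agent.Y133.Half.pw X (n - 1))) ∧
    (∀ N : ℕ, (Real.exp (64 * (b : ℝ) ^ (2 / 3 : ℝ) * Real.log (2 * b)) ≤ N ∨
        b ^ 3 ≤ N ∧ TotallyRealCentre T X) →
      Preserved D a (Pool.Agent.Y133.Half.pw X (N - 1)) →
        ∀ n : ℕ, Preserved D a (Pool.Agent.Y133.Half.pw X (n - 1))) := by
  refine ⟨fun N hN h n => Pool.Agent.Q60.ZGU.with_power D a hX hX' hb hN h (n - 1),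
    fun hc h4 => ?_, fun N hN h n => Pool.Agent.Q60.ZGU.preserved_power D a hX hb hN h n⟩
  obtain ⟨F, h1, h2⟩ := Pool.Agent.Q60.CJ.exists_number_field D a hX hc h4
  rw [hb] at h1
  exact ⟨F, h1, fun n => h2 (n - 1)⟩

end Pool.Agent.Q60.ZGU
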