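import Pool.Agent.Q60.CJ.Abs
import Pool.Agent.Q271.ZG.Hc
import Pool.Agent.Q271.ZG.All

/-!
# One comparison isomorphism: one power decides, with the bound of project ZG
-/

open CategoryTheory AlgebraicGeometry TensorProduct

set_option linter.unusedSectionVars false

universe u v w

namespace Pool.Agent.Q60.ZGU

section two

open Module Matrix
open Pool.Agent.H914 Pool.Agent.H914.VarClass Pool.Agent.H914.VarClass.Obj
  Pool.Agent.H914.WeilCohomology
open Pool.Agent.Y133.Half Pool.Agent.Y121.AH Pool.Agent.Q60.ED Pool.Agent.Q60.TD Pool.Agent.Q55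
open Pool.Agent.Q60.MT Pool.Agent.Q60.MV Pool.Agent.Q60.CJ
open Pool.Agent.Q60.HD (RealH IsPol phs)
open Pool.Agent.Q271.ZG (Bd BB Bd_self jobs nIdem_card eq_top' two_le_of_Bd)

section tensors

variable {ι : Type} [Fintype ι] [DecidableEq ι] (V V' : PHS ι) {L : Type} [Field L] [Algebra ℚ L]

/-- **Two Hodge structures**, without a condition on the centre. -/
theorem pair_gen (C' : PSys V.Q) (hC' : ∀ n, C'.S n = V.T n) {Φ : Matrix ι ι L}
    (hΦ : Φ.det ≠ 0) {N : ℕ} (hd : V.d + 1 ≤ Fintype.card ι)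
    (hN : Bd (Fintype.card ι) (Fintype.card ι) N)
    (h : ∀ m ≤ N, ∀ t ∈ V.T m, tpow Φ m (bc L t) ∈ bcS L (V'.T m)) {n : ℕ}
    {t : (Fin n → ι) → ℚ} (ht : t ∈ V.T n) : tpow Φ n (bc L t) ∈ bcS L (V'.T n) := by
  have hN2 : 2 ≤ N := two_le_of_Bd (by omega) (by omega) hN
  have hΩ := (mem_iff V' hΦ).1 (h 2 hN2 _ PHS.Om_mem)
  have key := eq_top' jobs (spanSys V V' C' hC' hΩ) (fun n t ht => ht.1) (nIdem_card V) hd hN
    (fun m hm t ht => ⟨ht, (mem_iff V' hΦ).1 (h m hm t ht)⟩) n ht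
  exact (mem_iff V' hΦ).2 key.2

end tensors

variable {k : Type u} [Field k] {𝒱 : VarClass k} {ops : CycleOps 𝒱} {T T₁ : HodgeTheory ops}
  {W' : WeilCohomology.{u, 0} ops} {C : Artin T.W W'} {C₁ : Artin T₁.W W'} {X Y Z : 𝒱.Obj}

/-- **One power decides.** -/
theorem hh_one (hR : RealH T X) {φ : Module.End T.W.K (T.W.H X)} (hφ : IsPol T X φ)
    (hR₁ : RealH T₁ X) {φ₁ : Module.End T₁.W.K (T₁.W.H X)} (hφ₁ : IsPol T₁ X φ₁) {N : ℕ}
    (hN : BB (finrank T.W.K (T.W.H X)) (N + 1))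
    (h : HH C C₁ (pw X N)) (m : ℕ) : HH C C₁ (pw X m) := by
  classical
  rcases subsingleton_or_nontrivial (T.W.H X) with hs | hn
  · have h1 : finrank T.W.K (T.W.H (pw X m)) = 0 := by
      rw [finrank_pw, finrank_zero_of_subsingleton, zero_pow (Nat.succ_ne_zero m)]
    have h2 : Subsingleton (T.W.H (pw X m)) := finrank_zero_iff.1 h1
    intro j x _
    rw [Subsingleton.elim x 0, map_zero]
    exact Submodule.zero_mem _
  obtain ⟨N₀, dg, e, e₁, e', e₁', he, he₁, hee, hee₁⟩ := exists_two T.rat T₁.rat C C₁ X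
  have hcard : Fintype.card (Fin N₀) = finrank T.W.K (T.W.H X) := (finrank_eq_card_basis e).symm
  obtain ⟨C', hC'⟩ := exists_psysH e he hR hφ
  refine hh_of e e₁ e' e₁' hee hee₁ hR hφ hR₁ hφ₁ fun t ht => ?_
  obtain ⟨E, hE⟩ := T.dec.polar X
  have h1 := Pool.Agent.Q60.HD.dim_lt hE.1 hE.2.1
  refine ZGU.pair_gen (phs e hR hφ) (phs e₁ hR₁ hφ₁) C' hC' (cf_det e' e₁') (N := N + 1)
    (by rw [hcard]; exact h1) (by rw [hcard]; exact Bd_self hN) (fun m hm s hs => ?_) ht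
  cases m with
  | zero =>
    have h4 : (phs e₁ hR₁ hφ₁).T 0 = ⊤ := by
      rw [Pool.Agent.Q60.HD.T_eq_crd, eq_top_iff]
      intro s _
      exact Pool.Agent.Q60.HD.mem_crd_zero e₁ s
    have h5 : ∀ s : (Fin 0 → Fin N₀) → W'.K, s ∈ bcS W'.K ((phs e₁ hR₁ hφ₁).T 0) := by
      intro s
      rw [h4]
      have h6 : s = s default • bc W'.K (fun _ => (1 : ℚ)) := by
        funext J
        rw [Pi.smul_apply, bc, map_one, smul_eq_mul, mul_one, Subsingleton.elim J default]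
      rw [h6]
      exact Submodule.smul_mem _ _ (bc_mem Submodule.mem_top)
    exact h5 _
  | succ m =>
    exact of_hh e e₁ e' e₁' hee hee₁ hR hφ hR₁ hφ₁ (hh_le (by omega) h) hs

end two

section fin

open Module
open Pool.Agent.H914 Pool.Agent.H914.VarClass Pool.Agent.H914.VarClass.Obj
  Pool.Agent.H914.WeilCohomology
open Pool.Agent.Y121 Pool.Agent.Y121.AHS Pool.Agent.Y133.Half
open Pool.Agent.Q60.FI (Polarisable TotallyRealCentre)
open Pool.Agent.Q60.MT (Artin hSpan)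
open Pool.Agent.Q60.CJ
open Pool.Agent.Q271.ZG (BB BB_mono jobs abs_powers')

variable {k : Type u} [Field k] {𝒱 : VarClass k} {ops : CycleOps 𝒱}

variable {T : AHS.HodgeTheory ops} (D : AHS.Conjugates T) (a : D.J) {X : 𝒱.Obj}

/-- **The power `X ^ (b ^ 3)`, or the power `X ^ N` with `N ≥ exp (64 b ^ (2/3) log (2 b))`,
decides.** -/
theorem preserved_power (hp : Polarisable T X) {b N : ℕ} (hb : finrank T.W.K (T.W.H X) = b)
    (hN : BB b N ∨ b ^ 3 ≤ N ∧ TotallyRealCentre T X)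
    (h : Preserved D a (pw X (N - 1))) (n : ℕ) : Preserved D a (pw X (n - 1)) := by
  rw [preserved_iff] at h ⊢
  exact (abs_powers' jobs T (oneD D a) X hp hb hN).1 h n

/-- **Linear combinations of Hodge classes**: one power decides. -/
theorem with_power (hp : Polarisable T X) (hp' : Polarisable (D.T' (D.t a)) X) {b N : ℕ}
    (hb : finrank T.W.K (T.W.H X) = b)
    (hN : BB b N ∨ 4 ≤ N ∧ TotallyRealCentre T X)
    (h : PreservedWith D a Set.univ (pw X (N - 1))) (n : ℕ) :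
    PreservedWith D a Set.univ (pw X n) := by
  obtain ⟨φ, hφ⟩ := hp.exists_isPol
  obtain ⟨φ₁, hφ₁⟩ := hp'.exists_isPol
  rw [univ_iff] at h ⊢
  rcases hN with hN | ⟨hN, hc⟩
  · refine ZGU.hh_one (T := toH T) hp.realH hφ hp'.realH hφ₁ (N := N - 1) ?_ h n
    have h1 : finrank (toH T).W.K ((toH T).W.H X) = b := hb
    rw [h1]
    exact BB_mono hN (by omega)
  · exact hh_all (T := toH T) hp.realH hφ hp'.realH hφ₁ hc.noSkew (hh_le (by omega) h) n

end fin

end Pool.Agent.Q60.ZGU
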