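import Pool.Agent.Q60.MT.Final
import Pool.Agent.Q271.ZG.Hc
import Pool.Agent.Q271.ZG.All

/-!
# The inclusion of the Hodge classes in the Tate classes, with the bound of project ZG
-/

set_option linter.unusedSectionVars false

universe u w

namespace Pool.Agent.Q60.ZGU

section tens

open MvPolynomial Module Matrix Pool.Agent.Q60.ED Pool.Agent.Q60.TD Pool.Agent.Q60.MT
open Pool.Agent.Q56.FD Pool.Agent.Q271.ZG

variable {ι : Type} [Fintype ι] [DecidableEq ι]

/-- The matrices which fix the invariant tensors of bounded degree fix all invariant tensors. -/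
theorem fix_all_L (V : PHS ι) {N : ℕ} (hd : V.d + 1 ≤ Fintype.card ι)
    (hN : Bd (Fintype.card ι) (Fintype.card ι) N) {L : Type} [Field L] [Algebra ℚ L]
    {h : Matrix ι ι L} (hh : ∀ m ≤ N, ∀ t ∈ V.T m, tpow h m (bc L t) = bc L t) {n : ℕ}
    {t : (Fin n → ι) → ℚ} (ht : t ∈ V.T n) : tpow h n (bc L t) = bc L t := by
  funext I
  rw [← sub_eq_zero, ← aeval_ft]
  refine transfer (Ω := ℂ) {p | ∃ m ≤ N, ∃ s ∈ V.T m, ∃ J : Fin m → ι, p = ft s J} (ft t I) ?_
    (fun p : ι × ι => h p.1 p.2) ?_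
  · intro x hx
    let g : Matrix ι ι ℂ := Matrix.of fun i j => x (i, j)
    have hg : (fun p : ι × ι => g p.1 p.2) = x := rfl
    have hcx : ∀ {m : ℕ} (s : (Fin m → ι) → ℚ), bc ℂ s = cx s := by
      intro m s
      funext a
      exact eq_ratCast (algebraMap ℚ ℂ) (s a)
    have h1 := fix_all' jobs V (nIdem_card V) hd hN (h := g) (fun m hm s hs => by
      funext J
      have h2 := hx _ ⟨m, hm, s, hs, J, rfl⟩
      rw [← hg, aeval_ft, sub_eq_zero, hcx] at h2
      exact h2) ht
    rw [← hg, aeval_ft, sub_eq_zero, hcx, h1]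
  · rintro _ ⟨m, hm, s, hs, J, rfl⟩
    rw [aeval_ft, hh m hm s hs, sub_self]

variable {K : Type} [Field K] {Γ : Type*} [Group Γ] [CharZero K]

/-- **Hodge tensors are virtually invariant** in all degrees if they are so in low degree. -/
theorem all_TK (R : MRep K ι Γ) (V : PHS ι) {N : ℕ} (hd : V.d + 1 ≤ Fintype.card ι)
    (hN : Bd (Fintype.card ι) (Fintype.card ι) N)
    (h : ∀ m ≤ N, ∀ t ∈ V.T m, bc K t ∈ TK R m) {n : ℕ} {t : (Fin n → ι) → ℚ}
    (ht : t ∈ V.T n) : bc K t ∈ TK R n := by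
  classical
  let L := AlgebraicClosure K
  have hL : CharZero L := charZero_of_injective_algebraMap (algebraMap K L).injective
  have hM : R.M ≤ 2 * R.M := by omega
  choose E hE hE' using exists_uniform R
  let Δ : Subgroup Γ := ⨅ m : Fin (N + 1), E m
  have hΔ : Δ.FiniteIndex := Subgroup.finiteIndex_iInf fun m => hE m
  have key : ∀ x : GG R L, x.1.1 ∈ Δ → tpow (rr R L x) n (bc L t) = bc L t := by
    intro x hx
    refine fix_all_L V hd hN (fun m hm s hs => ?_) ht
    have h1 := h m hm s hs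
    have h2 : bc L (bc K s) ∈ (toT (b := 0) R L hM).Ev m :=
      (bc_T (L := L) (b := 0) hM h1).1
    funext I
    have h3 := tpow_rr hM h2 x I
    rw [bc_bc] at h3
    rw [h3]
    have h4 := hE' m _ h1 x.1.1 ((Subgroup.mem_iInf.1 hx) ⟨m, by omega⟩) I
    have h5 := congrArg (algebraMap K L) h4
    rw [map_sum] at h5
    have h6 : ∀ I, algebraMap K L (bc K s I) = bc L s I := fun I => congrFun (bc_bc s) I
    rw [← h6 I, ← h5]
    refine Finset.sum_congr rfl fun J _ => ?_
    rw [map_mul, h6]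
  have hev : ∀ I : Fin n → ι, ¬ Even (∑ k, R.a (I k)) → t I = 0 := by
    intro I hI
    have h1 := congrFun (key (zz R L) Δ.one_mem) I
    rw [rr_zz, tpow_diag] at h1
    simp only [sg] at h1
    rw [Finset.prod_pow_eq_pow_sum, (Nat.not_even_iff_odd.1 hI).neg_one_pow, neg_one_mul,
      neg_eq_iff_add_eq_zero, ← two_mul] at h1
    have h2 : bc L t I = 0 := (mul_eq_zero.1 h1).resolve_left two_ne_zero
    exact (map_eq_zero (algebraMap ℚ L)).1 h2
  have hte : bc L (bc K t) ∈ (toT (b := 0) R L hM).Ev n := by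
    change tpow (diagonal (sg R L)) n (bc L (bc K t)) = bc L (bc K t)
    rw [bc_bc, tpow_diag]
    funext I
    simp only [sg]
    rw [Finset.prod_pow_eq_pow_sum]
    by_cases hI : Even (∑ k, R.a (I k))
    · rw [hI.neg_one_pow, one_mul]
    · have h1 : bc L t I = 0 := by
        rw [bc, hev I hI, map_zero]
      rw [h1, mul_zero]
  refine ⟨Δ, hΔ, fun g hg I => ?_⟩
  obtain ⟨x, hx⟩ := exists_GG (R := R) (L := L) g
  apply (algebraMap K L).injective
  have h1 := tpow_rr hM hte x I
  rw [bc_bc, key x (by rw [hx]; exact hg)] at h1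
  have h6 : ∀ I, algebraMap K L (bc K t I) = bc L t I := fun I => congrFun (bc_bc t) I
  rw [h6, h1, map_sum, hx]
  refine Finset.sum_congr rfl fun J _ => ?_
  rw [map_mul, h6]

end tens

section ht

open CategoryTheory AlgebraicGeometry TensorProduct
open Module Matrix
open Pool.Agent.H914 Pool.Agent.H914.VarClass Pool.Agent.H914.VarClass.Obj
  Pool.Agent.H914.WeilCohomology
open Pool.Agent.Y133.Half Pool.Agent.Y121.AH Pool.Agent.Q60.ED Pool.Agent.Q60.TD Pool.Agent.Q55
open Pool.Agent.Q60.MT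
open Pool.Agent.Q60.HD (wd wd_zero wd_succ wd_prj cls crd mem_crd_succ RealH IsPol phs T_eq_crd
  crd_mul crd_perm crd_contr mem_crd_zero rt_spec exists_tensor Qm dim_lt par_mem)
open Pool.Agent.Q271.ZG (Bd BB Bd_self BB_mono)

variable {k : Type u} [Field k] {𝒱 : VarClass k} {ops : CycleOps 𝒱} {T : HodgeTheory ops}
  {W' : WeilCohomology.{u, 0} ops} {C : Artin T.W W'} {X Y Z : 𝒱.Obj} {Γ : Type w} [Group Γ]
  {G : GaloisAction W' Γ}

/-- **Hodge classes which are Tate classes**, with the bound of project ZG. -/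
theorem ht_main (hR : RealH T X) {φ : Module.End T.W.K (T.W.H X)} (hφ : IsPol T X φ) {N : ℕ}
    (hN : BB (finrank W'.K (W'.H X)) (N + 1))
    (h : HT C G (pw X N)) (n : ℕ) : HT C G (pw X n) := by
  classical
  obtain ⟨e0, a0, he0⟩ := exists_grbasis T.W X
  obtain ⟨e0', hee0⟩ := exists_eX C T.rat e0
  have hbb : finrank W'.K (W'.H X) = finrank T.W.K (T.W.H X) := by
    rw [Module.finrank_eq_card_basis e0', Fintype.card_fin]
  clear hee0 e0' he0 a0 e0
  by_cases hX : Nontrivial (T.W.H X)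
  swap
  · apply (sh_zero _ n).2.1
    by_contra h2
    rw [hbb] at h2
    exact hX (Module.nontrivial_of_finrank_pos (R := T.W.K) (Nat.pos_of_ne_zero h2))
  rw [hbb] at hN
  obtain ⟨E, hE⟩ := T.dec.polar X
  have hdim := dim_lt hE.1 hE.2.1
  have hBd := Bd_self hN
  obtain ⟨e, a, he⟩ := exists_grbasis T.W X
  obtain ⟨e', hee⟩ := exists_eX C T.rat e
  have he' : ∀ j, e' j ∈ W'.gr X (a j) := he_gr e e' hee he
  refine ht_of_TK e e' hee hR hφ he' fun t ht => ?_
  refine ZGU.all_TK (toM G e' he') (phs e hR hφ) (N := N + 1) ?_ ?_ (fun m hm s hs => ?_) ht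
  · rw [Fintype.card_fin]
    exact hdim
  · rw [Fintype.card_fin]
    exact hBd
  · cases m with
    | zero =>
      rw [TK_eq]
      exact mem_crdK_zero e' _
    | succ m => exact bc_mem_TK e e' hee hR hφ he' (ht_le (by omega) h) hs

end ht

section incl

open CategoryTheory AlgebraicGeometry TensorProduct
open Module Matrix
open Pool.Agent.H914 Pool.Agent.H914.VarClass Pool.Agent.H914.VarClass.Obj
  Pool.Agent.H914.WeilCohomology
open Pool.Agent.Y133.Half Pool.Agent.Y121 Pool.Agent.Q60.ED Pool.Agent.Q60.TD Pool.Agent.Q55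
open Pool.Agent.Q60.MT
open Pool.Agent.Q271.ZG (BB)

variable {k : Type u} [Field k] {𝒱 : VarClass k} {ops : CycleOps 𝒱} {T : AHS.HodgeTheory ops}
  {W' : WeilCohomology.{u, 0} ops} {C : Artin T.W W'} {X Y Z : 𝒱.Obj} {Γ : Type w} [Group Γ]
  {G : GaloisAction W' Γ}

/-- **Effective finite determination for Hodge classes which are Tate classes.** -/
theorem determination_incl (hX : IsPolarisable T X) {N : ℕ}
    (hN : BB (finrank W'.K (W'.H X)) (N + 1))
    (h : ∀ j c, InSpan W'.K (C.f (pw X N)) (AHS.IsHodge T (pw X N) j) c → IsTate G (pw X N) j c)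
    (n j : ℕ) (c : W'.H (pw X n))
    (hc : InSpan W'.K (C.f (pw X n)) (AHS.IsHodge T (pw X n) j) c) : IsTate G (pw X n) j c := by
  obtain ⟨φ, hφ⟩ := exists_isPol hX
  have h1 : HT (T := tA T) C G (pw X N) := fun j x hx =>
    h j _ (Submodule.subset_span ⟨x, hx, rfl⟩)
  have h2 := ZGU.ht_main (T := tA T) (MT.realH hX) hφ hN h1 n
  change c ∈ Submodule.span W'.K _ at hc
  induction hc using Submodule.span_induction with
  | mem x hx =>
    obtain ⟨y, hy, rfl⟩ := hx
    exact h2 j y hy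
  | zero => exact (tatePred G).zero
  | add x y _ _ hx hy => exact (tatePred G).add hx hy
  | smul c x _ hx => exact (tatePred G).smul c hx

end incl

end Pool.Agent.Q60.ZGU
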